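import Pool.Agent.L7h47.DF.Stm

set_option autoImplicit false

/-! Project DF, part RES: quadratic reciprocity. -/

namespace Pool.Agent.L7h52.DF
open Pool.Agent.L7h47.DF

open scoped NumberTheorySymbols in
theorem sq_disc {lam u : ℕ} (h0 : 0 < lam) [Fact u.Prime] (h4 : u % 4 = 1)
    (hJ : u ≡ 1 [MOD (4 * lam - 1)]) : IsSquare ((1 : ZMod u) - 4 * lam) := by
  have hodd : Odd (4 * lam - 1) := ⟨2 * lam - 1, by omega⟩
  have e1 : J((u : ℤ) | (4 * lam - 1)) = J(((4 * lam - 1 : ℕ) : ℤ) | u) :=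
    jacobiSym.quadratic_reciprocity_one_mod_four h4 hodd
  have e2 : J((u : ℤ) | (4 * lam - 1)) = 1 := by
    rw [jacobiSym.mod_left]
    have : ((u : ℤ) % ((4 * lam - 1 : ℕ) : ℤ)) = 1 % ((4 * lam - 1 : ℕ) : ℤ) := by
      have h := hJ
      unfold Nat.ModEq at h
      exact_mod_cast h
    rw [this, ← jacobiSym.mod_left, jacobiSym.one_left]
  have h1 : IsSquare (((4 * lam - 1 : ℕ) : ℤ) : ZMod u) :=
    ZMod.isSquare_of_jacobiSym_eq_one (e1 ▸ e2)
  have h2 : IsSquare (-1 : ZMod u) := ZMod.exists_sq_eq_neg_one_iff.2 (by omega)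
  have h3 := h2.mul h1
  have e3 : (-1 : ZMod u) * (((4 * lam - 1 : ℕ) : ℤ) : ZMod u) = 1 - 4 * lam := by
    rw [Int.cast_natCast, Nat.cast_sub (by omega)]
    push_cast
    ring
  rwa [e3] at h3

theorem s_RES : S_RES := by
  intro lam p h0 hp h4
  haveI : Fact p.Prime := ⟨hp⟩
  have hp2 : p ≠ 2 := by omega
  obtain ⟨s, hs⟩ : ∃ s : ZMod p, ¬ IsSquare s :=
    FiniteField.exists_nonsquare (by rw [ZMod.ringChar_zmod_n]; exact hp2)
  have hs0 : s ≠ 0 := by
    rintro rfl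
    exact hs ⟨0, by simp⟩
  have hco : Nat.Coprime (4 * (4 * lam - 1)) p := by
    rw [Nat.coprime_comm, Nat.Prime.coprime_iff_not_dvd hp]
    intro h
    rcases (Nat.Prime.dvd_mul hp).1 h with h | h
    · have := Nat.le_of_dvd (by norm_num) h
      omega
    · have := Nat.le_of_dvd (by omega) h
      omega
  obtain ⟨A, hA1, hA2⟩ := Nat.chineseRemainder hco 1 s.val
  refine ⟨4 * (4 * lam - 1) * p, (A : ZMod _), Nat.mul_pos (by omega) hp.pos, ?_, ?_⟩
  · rw [ZMod.isUnit_iff_coprime]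
    refine Nat.Coprime.mul_right ?_ ?_
    · have : Nat.gcd A (4 * (4 * lam - 1)) = Nat.gcd 1 (4 * (4 * lam - 1)) := hA1.gcd_eq
      rw [Nat.Coprime, this, Nat.gcd_one_left]
    · rw [Nat.coprime_comm, Nat.Prime.coprime_iff_not_dvd hp]
      intro h
      apply hs0
      have h1 : ((A : ℕ) : ZMod p) = ((s.val : ℕ) : ZMod p) := (ZMod.natCast_eq_natCast_iff _ _ _).2 hA2
      rw [ZMod.natCast_zmod_val, (ZMod.natCast_eq_zero_iff _ _).2 h] at h1
      exact h1.symm
  · intro u hu hua hlu hu2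
    haveI : Fact u.Prime := ⟨hu⟩
    have hmod : u ≡ A [MOD 4 * (4 * lam - 1) * p] := (ZMod.natCast_eq_natCast_iff _ _ _).1 hua
    have m1 : u ≡ 1 [MOD 4 * (4 * lam - 1)] :=
      (hmod.of_dvd (Dvd.intro _ rfl)).trans hA1
    have m2 : u ≡ s.val [MOD p] := (hmod.of_dvd (Dvd.intro_left _ rfl)).trans hA2
    have m4 : u % 4 = 1 := (m1.of_dvd (Dvd.intro _ rfl) : u ≡ 1 [MOD 4])
    have mJ : u ≡ 1 [MOD (4 * lam - 1)] := m1.of_dvd (Dvd.intro_left _ rfl)
    constructor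
    · rw [ZMod.exists_sq_eq_prime_iff_of_mod_four_eq_one m4 hp2]
      have h1 : ((u : ℕ) : ZMod p) = s := by
        rw [(ZMod.natCast_eq_natCast_iff _ _ _).2 m2, ZMod.natCast_zmod_val]
      rw [h1]
      exact hs
    · obtain ⟨t, ht⟩ := sq_disc h0 m4 mJ
      have h2 : (2 : ZMod u) ≠ 0 := by
        intro h
        have h' : ((2 : ℕ) : ZMod u) = 0 := by exact_mod_cast h
        have h3 := (ZMod.natCast_eq_zero_iff _ _).1 h'
        have h5 := Nat.le_of_dvd (by norm_num) h3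
        have h6 := hu.two_le
        omega
      refine ⟨((1 + t) / 2 : ZMod u).val, fun k hk => ?_⟩
      have hk' : (k : ZMod u) = (1 + t) / 2 := by
        rw [(ZMod.natCast_eq_natCast_iff _ _ _).2 hk, ZMod.natCast_zmod_val]
      rw [← ZMod.natCast_eq_zero_iff, Nat.cast_add, Nat.cast_sub (Nat.le_mul_self k), Nat.cast_mul, hk']
      have h4' : (4 : ZMod u) ≠ 0 := by
        have : (4 : ZMod u) = 2 * 2 := by norm_num
        rw [this]
        exact mul_ne_zero h2 h2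
      field_simp
      linear_combination (-1 : ZMod u) * ht
end Pool.Agent.L7h52.DF
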